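import Pool.Agent.Y808.DR.Stm
import Pool.Agent.H379R3.Reg

/-!
# Project DR (helper808, MP_f322fd_al): the key lemma KL (helper41)
-/

set_option autoImplicit false

namespace Pool.Agent.Y41.DR

open IsLocalRing MvPolynomial Pool.Agent.Y808.DR

universe u

/-- fields of characteristic zero are formally smooth -/
theorem smooth (L : Type u) [Field L] [Algebra ℚ L] : Algebra.FormallySmooth ℚ L := by
  obtain ⟨s, hs⟩ := exists_isTranscendenceBasis ℚ L
  have := hs.isAlgebraic_field
  exact .of_algebraicIndependent_of_isSeparable hs.1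

/-- coefficient field of an Artinian quotient -/
theorem coeff_field (B : Type u) [CommRing B] [Algebra ℚ B] [IsLocalRing B] (N : ℕ) (hN : N ≠ 0) :
    ∃ s : ResidueField B →+* B ⧸ maximalIdeal B ^ N, ∀ b : B,
      Ideal.Quotient.mk (maximalIdeal B ^ N) b - s (residue B b) ∈
        (maximalIdeal B).map (Ideal.Quotient.mk (maximalIdeal B ^ N)) := by
  have hle : maximalIdeal B ^ N ≤ maximalIdeal B := Ideal.pow_le_self hN
  let g : (B ⧸ maximalIdeal B ^ N) →ₐ[ℚ] ResidueField B :=
    Ideal.Quotient.liftₐ (maximalIdeal B ^ N) (IsScalarTower.toAlgHom ℚ B (ResidueField B))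
      (fun a ha => (residue_eq_zero_iff a).mpr (hle ha))
  have hg : ∀ b : B, g (Ideal.Quotient.mk (maximalIdeal B ^ N) b) = residue B b := fun b => rfl
  have hsurj : Function.Surjective g := by
    intro x
    obtain ⟨b, rfl⟩ := residue_surjective x
    exact ⟨_, hg b⟩
  have hker : ∀ r, g r = 0 → r ∈ (maximalIdeal B).map (Ideal.Quotient.mk (maximalIdeal B ^ N)) := by
    intro r hr
    obtain ⟨b, rfl⟩ := Ideal.Quotient.mk_surjective r
    rw [hg, residue_eq_zero_iff] at hr
    exact Ideal.mem_map_of_mem _ hr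
  have hnil : IsNilpotent (RingHom.ker g) := by
    refine ⟨N, ?_⟩
    rw [Ideal.zero_eq_bot, eq_bot_iff]
    have h1 : RingHom.ker g ≤ (maximalIdeal B).map (Ideal.Quotient.mk (maximalIdeal B ^ N)) :=
      fun r hr => hker r hr
    refine (Ideal.pow_right_mono h1 N).trans ?_
    rw [← Ideal.map_pow, Ideal.map_quotient_self]
  have := smooth (ResidueField B)
  let s := Algebra.FormallySmooth.liftOfSurjective (AlgHom.id ℚ (ResidueField B)) g hsurj hnil
  have hs : ∀ x, g (s x) = x := fun x =>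
    Algebra.FormallySmooth.liftOfSurjective_apply (AlgHom.id ℚ (ResidueField B)) g hsurj hnil x
  refine ⟨s, fun b => hker _ ?_⟩
  rw [map_sub, hg]
  show residue B b - g (s (residue B b)) = 0
  rw [hs, sub_self]

/-- surjectivity of the evaluation -/
theorem surj {R κ : Type u} [CommRing R] [CommRing κ] {d : ℕ} (s : κ →+* R) (y : Fin d → R)
    (hs : ∀ r : R, ∃ c : κ, r - s c ∈ Ideal.span (Set.range y)) (j : ℕ) (r : R) :
    ∃ f : MvPolynomial (Fin d) κ, r - eval₂Hom s y f ∈ Ideal.span (Set.range y) ^ j := by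
  induction j generalizing r with
  | zero => exact ⟨0, by simp⟩
  | succ j ih =>
    obtain ⟨c, hc⟩ := hs r
    obtain ⟨a, ha⟩ := Ideal.mem_span_range_iff_exists_fun.mp hc
    choose f hf using fun i => ih (a i)
    refine ⟨C c + ∑ i, f i * X i, ?_⟩
    have h1 : r - eval₂Hom s y (C c + ∑ i, f i * X i)
        = ∑ i, (a i - eval₂Hom s y (f i)) * y i := by
      simp only [map_add, map_sum, map_mul, coe_eval₂Hom, eval₂_C, eval₂_X]
      simp only [sub_mul, Finset.sum_sub_distrib, ha]
      ring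
    rw [h1, pow_succ]
    refine Ideal.sum_mem _ fun i _ => Ideal.mul_mem_mul (hf i) ?_
    exact Ideal.subset_span ⟨i, rfl⟩

theorem prod_mem {R : Type u} [CommRing R] {d : ℕ} (y : Fin d → R) (n : Ideal R)
    (hy : ∀ i, y i ∈ n) (x : Fin d →₀ ℕ) : ∏ i, y i ^ x i ∈ n ^ x.degree := by
  rw [Finsupp.degree_eq_sum, ← Finset.prod_pow_eq_pow_sum]
  exact Ideal.prod_mem_prod fun i _ => Ideal.pow_mem_pow (hy i) _

/-- comparison of the two evaluations -/
theorem compare {R κ B : Type u} [CommRing R] [CommRing κ] [CommRing B] {d : ℕ} (s : κ →+* R)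
    (mk : B →+* R) (res : B →+* κ) (y : Fin d → R) (n : Ideal R) (hy : ∀ i, y i ∈ n)
    (hs : ∀ b, mk b - s (res b) ∈ n) (k : ℕ) (G : MvPolynomial (Fin d) B) (hG : G.IsHomogeneous k) :
    eval₂ mk y G - eval₂Hom s y (map res G) ∈ n ^ (k + 1) := by
  rw [coe_eval₂Hom, eval₂_map, eval₂_eq', eval₂_eq', ← Finset.sum_sub_distrib]
  refine Ideal.sum_mem _ fun x hx => ?_
  rw [← sub_mul, add_comm k 1, pow_add, pow_one]
  refine Ideal.mul_mem_mul (hs _) ?_
  have h1 : x.degree = k := by
    have h2 := hG (mem_support_iff.mp hx)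
    rw [Finsupp.degree_eq_weight_one]
    exact h2
  rw [← h1]
  exact prod_mem y n hy x

theorem t_KL : S_QR.{u} → S_KL.{u} := by
  intro hQR B _ _ _ w hw1 hw2 I M hM e hwe
  obtain ⟨d, z, i₀, hd, hz, hzw⟩ := Pool.Agent.H379R3.exists_param_of_mem w hw1 hw2
  by_cases hM0 : M = 0
  · subst hM0
    rw [pow_zero, Ideal.one_eq_top, top_le_iff] at hM
    rw [hM]
    exact Submodule.mem_top
  set N : ℕ := 2 * M with hN
  have hN0 : N ≠ 0 := by omega
  obtain ⟨s, hs⟩ := coeff_field B N hN0
  set mk : B →+* B ⧸ maximalIdeal B ^ N := Ideal.Quotient.mk (maximalIdeal B ^ N) with hmk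
  set 𝔫 : Ideal (B ⧸ maximalIdeal B ^ N) := (maximalIdeal B).map mk with h𝔫
  let y : Fin d → B ⧸ maximalIdeal B ^ N := fun i => mk (z i)
  have hy𝔫 : Ideal.span (Set.range y) = 𝔫 := by
    have h1 : (Ideal.span (Set.range z)).map mk = 𝔫 := by rw [hz]
    rw [Ideal.map_span, ← Set.range_comp] at h1
    exact h1
  have hy : ∀ i, y i ∈ 𝔫 := fun i => by
    rw [← hy𝔫]
    exact Ideal.subset_span ⟨i, rfl⟩
  set Φ := eval₂Hom s y with hΦ
  have hpow : ∀ k, k ≤ N → ∀ b : B, mk b ∈ 𝔫 ^ k → b ∈ maximalIdeal B ^ k := by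
    intro k hk b hb
    rw [h𝔫, ← Ideal.map_pow] at hb
    exact (Ideal.mem_quotient_iff_mem (Ideal.pow_le_pow_right hk)).mp hb
  have h𝔫N : 𝔫 ^ N = ⊥ := by
    rw [h𝔫, ← Ideal.map_pow, Ideal.map_quotient_self]
  -- surjectivity
  have hsurj : Function.Surjective Φ := by
    intro r
    obtain ⟨f, hf⟩ := surj s y (fun r => by
      obtain ⟨b, rfl⟩ := Ideal.Quotient.mk_surjective r
      exact ⟨residue B b, by rw [hy𝔫]; exact hs b⟩) N r
    rw [hy𝔫, h𝔫N, Ideal.mem_bot, sub_eq_zero] at hf
    exact ⟨f, hf.symm⟩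
  have hXle : idealOfVars (Fin d) (ResidueField B) ≤ 𝔫.comap Φ := by
    rw [idealOfVars, Ideal.span_le]
    rintro _ ⟨i, rfl⟩
    rw [SetLike.mem_coe, Ideal.mem_comap, hΦ, coe_eval₂Hom, eval₂_X]
    exact hy i
  have hXpow : ∀ k, ∀ f ∈ idealOfVars (Fin d) (ResidueField B) ^ k, Φ f ∈ 𝔫 ^ k := by
    intro k f hf
    have h1 : Φ f ∈ (idealOfVars (Fin d) (ResidueField B) ^ k).map Φ := Ideal.mem_map_of_mem _ hf
    rw [Ideal.map_pow] at h1
    exact Ideal.pow_right_mono (Ideal.map_le_iff_le_comap.mpr hXle) k h1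
  -- the kernel
  have hkey : ∀ k, k ≤ N → ∀ f, Φ f ∈ 𝔫 ^ k → f ∈ idealOfVars (Fin d) (ResidueField B) ^ k := by
    intro k
    induction k with
    | zero => intro _ f _; simp
    | succ k ih =>
      intro hk f hf
      have h1 := ih (by omega) f (Ideal.pow_le_pow_right (Nat.le_succ k) hf)
      rw [mem_pow_idealOfVars_iff'] at h1 ⊢
      obtain ⟨G0, hG0⟩ := map_surjective (residue B) residue_surjective f
      set G := homogeneousComponent k G0 with hG
      have hGh : G.IsHomogeneous k := homogeneousComponent_isHomogeneous k G0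
      have hGf : map (residue B) G = homogeneousComponent k f := by
        ext x
        rw [coeff_map, hG, coeff_homogeneousComponent, coeff_homogeneousComponent, ← hG0,
          coeff_map]
        split_ifs <;> simp
      have h2 : f - homogeneousComponent k f ∈ idealOfVars (Fin d) (ResidueField B) ^ (k + 1) := by
        rw [mem_pow_idealOfVars_iff']
        intro x hx
        rw [coeff_sub, coeff_homogeneousComponent]
        by_cases hxk : x.degree = k
        · rw [if_pos hxk, sub_self]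
        · rw [if_neg hxk, sub_zero]
          exact h1 x (by omega)
      have h3 := hXpow _ _ h2
      rw [map_sub] at h3
      have h4 : Φ (homogeneousComponent k f) ∈ 𝔫 ^ (k + 1) := by
        have := Ideal.sub_mem _ hf h3
        rwa [sub_sub_cancel] at this
      have h5 := compare s mk (residue B) y 𝔫 hy hs k G hGh
      rw [hGf] at h5
      have h6 : eval₂ mk y G ∈ 𝔫 ^ (k + 1) := by
        have := Ideal.add_mem _ h5 h4
        rwa [sub_add_cancel] at this
      have h7 : eval₂ mk y G = mk (eval z G) := by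
        have h := eval₂_comp_left mk (RingHom.id B) z G
        rw [eval₂_id, RingHom.comp_id] at h
        exact h.symm
      rw [h7] at h6
      have h8 := hQR B d z hd hz k G hGh (hpow (k + 1) hk _ h6)
      intro x hx
      by_cases hxk : x.degree = k
      · have h9 : coeff x (map (residue B) G) = 0 := by
          rw [coeff_map, residue_eq_zero_iff]
          exact h8 x
        rw [hGf, coeff_homogeneousComponent, if_pos hxk] at h9
        exact h9
      · exact h1 x (by omega)
  -- the ideal J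
  set J : Ideal (MvPolynomial (Fin d) (ResidueField B)) := (I.map mk).comap Φ with hJ
  have hJ1 : idealOfVars (Fin d) (ResidueField B) ^ M ≤ J := by
    intro f hf
    rw [hJ, Ideal.mem_comap]
    have h1 := hXpow M f hf
    rw [h𝔫, ← Ideal.map_pow] at h1
    exact Ideal.map_mono hM h1
  have hJ2 : ((I.map mk) ^ 2).comap Φ ≤ J ^ 2 := by
    have h1 : J.map Φ = I.map mk := Ideal.map_comap_of_surjective Φ hsurj _
    rw [← h1, ← Ideal.map_pow, Ideal.comap_map_of_surjective Φ hsurj]
    refine sup_le le_rfl ?_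
    intro f hf
    rw [Ideal.mem_comap, Ideal.mem_bot] at hf
    have h2 := hkey N le_rfl f (by rw [hf]; exact Ideal.zero_mem _)
    rw [hN, two_mul, pow_add] at h2
    rw [pow_two]
    exact Ideal.mul_mono hJ1 hJ1 h2
  have hX : (X i₀ : MvPolynomial (Fin d) (ResidueField B)) ^ (e + 1) ∈ J ^ 2 := by
    apply hJ2
    rw [Ideal.mem_comap, map_pow, hΦ, coe_eval₂Hom, eval₂_X, ← Ideal.map_pow]
    show mk (z i₀) ^ (e + 1) ∈ _
    rw [hzw, ← map_pow]
    exact Ideal.mem_map_of_mem _ hwe
  have hD : ∀ a ∈ J ^ 2, pderiv i₀ a ∈ J := by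
    intro a ha
    rw [pow_two] at ha
    refine Submodule.mul_induction_on ha ?_ ?_
    · intro p hp q hq
      rw [Derivation.leibniz]
      exact Ideal.add_mem _ (Ideal.mul_mem_right _ _ hp) (Ideal.mul_mem_right _ _ hq)
    · intro p q hp hq
      rw [map_add]
      exact Ideal.add_mem _ hp hq
  have h1 := hD _ hX
  have h2 : pderiv i₀ ((X i₀ : MvPolynomial (Fin d) (ResidueField B)) ^ (e + 1))
      = C ((e : ResidueField B) + 1) * X i₀ ^ e := by
    rw [pderiv_pow, pderiv_X_self]
    simp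
  rw [h2] at h1
  have : CharZero (ResidueField B) := algebraRat.charZero _
  have h3 : ((e : ResidueField B) + 1) ≠ 0 := Nat.cast_add_one_ne_zero e
  have h4 : (X i₀ : MvPolynomial (Fin d) (ResidueField B)) ^ e ∈ J := by
    have := Ideal.mul_mem_left J (C ((e : ResidueField B) + 1)⁻¹) h1
    rwa [← mul_assoc, ← C_mul, inv_mul_cancel₀ h3, C_1, one_mul] at this
  rw [hJ, Ideal.mem_comap, map_pow, hΦ, coe_eval₂Hom, eval₂_X] at h4
  have h5 : mk (w ^ e) ∈ I.map mk := by
    rw [map_pow, ← hzw]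
    exact h4
  have h6 : maximalIdeal B ^ N ≤ I := (Ideal.pow_le_pow_right (by omega)).trans hM
  exact (Ideal.mem_quotient_iff_mem h6).mp h5

end Pool.Agent.Y41.DR
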