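import Pool.Agent.Y808.DR.Stm3
import Pool.Agent.Y768.DR.EUL

/-!
# Project DR (helper808, MP_f322fd_al): adapted systems of parameters SYS (helper41, from the
construction of helper768)
-/

set_option autoImplicit false

namespace Pool.Agent.Y41.DR

open IsLocalRing Pool.Agent.Y808.DR

universe u

theorem t_SYS : S_SYS.{u} := by
  classical
  intro B _ _ P hP
  obtain ⟨d, hd⟩ := Pool.Agent.H379R3.exists_dim_eq (B := B)
  have := hP
  obtain ⟨z, U, hz, hU⟩ := Pool.Agent.Y768.DR.exists_adapted d B P hd
  refine ⟨d, z, U.toFinset, hd, hz, ?_⟩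
  rw [Set.coe_toFinset]
  exact hU

end Pool.Agent.Y41.DR
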